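import Pool.Agent.Q115.AG.Par
import Pool.Agent.H852R2.TE.S.FIN

/-!
MP_75608d_al.  For a fixed number of random even permutations: in EVERY unitary representation of
`A_n` without invariant vectors, for instance on the mean zero functions of the Cayley graph, all
but a proportion `exp (-n^(1-δ))` of the eigenvalues of the walk are at most `1 - ε`.
-/

namespace Pool.Agent.Results.MP_75608d_al.EveryRepresentation
open RC14 Finset Filter Topology Pool.Agent.Q115.AG

theorem result (δ : ℝ) (hδ : 0 < δ) : ∃ k₀ : ℕ, ∀ k ≥ k₀, ∃ ε : ℝ, 0 < ε ∧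
    Tendsto (fun n : ℕ =>
      (Nat.card {x : Fin k → alternatingGroup (Fin n) // AlmostGap n δ ε x} : ℝ) /
        (Fintype.card (alternatingGroup (Fin n)) : ℝ) ^ k) atTop (𝓝 1) := by
  set δ' : ℝ := min δ (1 / 2) with hδ'
  have hδ0 : 0 < δ' := lt_min hδ (by norm_num)
  have hδ1 : δ' ≤ 1 / 2 := min_le_right _ _
  obtain ⟨k0, hk0⟩ := TE852.GAPE (1 - δ' / 4) (TE852.TEMAIN (1 - δ' / 4) (by linarith))
  refine ⟨k0 + 1, fun k hk => ?_⟩
  obtain ⟨c, hc, B, hB, hgap⟩ := hk0 k (by omega)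
  have hk1 : 1 ≤ k := by omega
  obtain ⟨ε, hε, hpar⟩ := par δ' hδ0 hδ1 k hk1 c hc
  refine ⟨ε, hε, ?_⟩
  have key : ∀ ε0 : ℝ, 0 < ε0 → ∀ᶠ n : ℕ in atTop, (Nat.card {x : Fin k → Alt n //
      ¬ AlmostGap n δ ε x} : ℝ) ≤ ε0 * (Fintype.card (Alt n) : ℝ) ^ k := by
    intro ε0 hε0
    have hlim : ∀ᶠ n : ℕ in atTop, B / ε0 ≤ (n : ℝ) ^ (1 : ℝ) := ev_const 1 _ (by norm_num)
    filter_upwards [hgap, hpar, hlim, eventually_ge_atTop 1] with n h1 h2 h3 h4
    have hn : (0 : ℝ) < n := by exact_mod_cast h4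
    have hn1 : (1 : ℝ) ≤ n := by exact_mod_cast h4
    rw [Real.rpow_one, div_le_iff₀ hε0] at h3
    have h5 := RC14.card_mono (fun x : Fin k → Alt n => ¬ AlmostGap n δ ε x)
      (fun x => ¬ Good1 n (TE852.Rr (1 - δ' / 4) n) c x)
      (fun x hx h => hx (by
        intro V _ _ _ ρ hinv U hU
        refine (h2 x h V ρ hinv U hU).trans ?_
        refine mul_le_mul_of_nonneg_right (Real.exp_le_exp.2 ?_) (Nat.cast_nonneg _)
        have : (n : ℝ) ^ (1 - δ) ≤ (n : ℝ) ^ (1 - δ') :=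
          Real.rpow_le_rpow_of_exponent_le hn1 (by
            have := min_le_left δ (1 / 2)
            linarith)
        linarith))
    have h6 : B / (n : ℝ) ≤ ε0 := by
      rw [div_le_iff₀ hn]; linarith
    calc (Nat.card {x : Fin k → Alt n // ¬ AlmostGap n δ ε x} : ℝ)
        ≤ (Nat.card {x : Fin k → Alt n // ¬ Good1 n (TE852.Rr (1 - δ' / 4) n) c x} : ℝ) := by
          exact_mod_cast h5
      _ ≤ _ := h1
      _ ≤ ε0 * (Fintype.card (Alt n) : ℝ) ^ k := by gcongr
  have hpos : ∀ n : ℕ, (0 : ℝ) < (Fintype.card (Alt n) : ℝ) := fun n => by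
    exact_mod_cast Fintype.card_pos
  refine tendsto_order.mpr ⟨fun b hb => ?_, fun b hb => ?_⟩
  · filter_upwards [key ((1 - b) / 2) (by linarith)] with n hn
    have hA := hpos n
    rw [lt_div_iff₀ (by positivity), RC14.card_compl, Fintype.card_fun, Fintype.card_fin]
    push_cast
    have hp : (0 : ℝ) < (Fintype.card (Alt n) : ℝ) ^ k := by positivity
    nlinarith
  · refine Eventually.of_forall fun n => lt_of_le_of_lt ?_ hb
    have hA := hpos n
    rw [div_le_one (by positivity), RC14.card_compl, Fintype.card_fun, Fintype.card_fin]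
    push_cast
    linarith [Nat.cast_nonneg (α := ℝ) (Nat.card {x : Fin k → Alt n //
      ¬ AlmostGap n δ ε x})]

end Pool.Agent.Results.MP_75608d_al.EveryRepresentation
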