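import Pool.Agent.Results.MP_75608d_al.GapAllTuples
import Pool.Agent.Q294.AR.Gap
import Pool.Agent.Q115.AG.Par
import Pool.Agent.H852R2.TE.S.FIN

/-!
# All subsets of polynomially many random even permutations

Random even permutations `x_1, …, x_M`, `M ≤ n^γ`, independent, each with a distribution whose
density with respect to the uniform distribution of `A_n` is at most `n^γ` (for example uniform in a
set of at least `n^{-γ} |A_n|` elements). For every `q ≥ a` (`a` a constant), with probability at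
least `1 - n^{-γ q}` *every* choice of at least `q` of them, even after adding arbitrary further
generators, has a uniform gap on all representations of dimension at most `exp (n^{1-δ})`, and an
almost complete gap in every unitary representation.

Input: for `a₀` independent uniform elements the failure probability of the library's good event
(energy bounded below on all levels `≤ n^s`, `s < 1`) is `O(1/n)`. Among `2t` disjoint blocks of `a₀`
elements at most `t` are bad, except with probability `O(1/n)^t` times the number of choices and the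
density; an average over cyclic shifts gives the right constant for all larger families.
-/

set_option autoImplicit false

namespace Pool.Agent.Results.MP_75608d_al.EverySubset

open RC14 Finset Filter Topology
open scoped InnerProductSpace
open scoped Classical

/-- the averaging operator `(1/2k) ∑_i (ρ(x_i) + ρ(x_i)⁻¹)` of the representation `ρ` -/
noncomputable def average {n k : ℕ} {V : Type} [NormedAddCommGroup V] [InnerProductSpace ℝ V]
    (ρ : alternatingGroup (Fin n) →* (V ≃ₗᵢ[ℝ] V)) (x : Fin k → alternatingGroup (Fin n)) (v : V) :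
    V :=
  (1 / (2 * k) : ℝ) • ∑ i, (ρ (x i) v + ρ (x i)⁻¹ v)

/-- for all orthogonal representations `ρ` of `A_n` of dimension at most `D` the averaging operator
`P` satisfies `(v, P v) ≤ (1 - ε) (v, v)` for all `v` orthogonal to the invariant vectors -/
def GapOnRepresentations (n : ℕ) (D : ℝ) {k : ℕ} (ε : ℝ)
    (x : Fin k → alternatingGroup (Fin n)) : Prop :=
  ∀ (V : Type) [NormedAddCommGroup V] [InnerProductSpace ℝ V] [FiniteDimensional ℝ V]
    (ρ : alternatingGroup (Fin n) →* (V ≃ₗᵢ[ℝ] V)), (Module.finrank ℝ V : ℝ) ≤ D →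
    ∀ v : V, (∀ w : V, (∀ g, ρ g w = w) → ⟪w, v⟫_ℝ = 0) →
      ⟪v, average ρ x v⟫_ℝ ≤ (1 - ε) * ‖v‖ ^ 2

/-- in every unitary representation of `A_n` without nonzero invariant vectors, of any dimension,
every subspace on which the average of the generators has real part of the quadratic form at least
`1 - ε` has at most the proportion `exp (-n^(1-δ))` of the dimension -/
def AlmostGap (n : ℕ) (δ ε : ℝ) {k : ℕ} (x : Fin k → alternatingGroup (Fin n)) : Prop :=
  ∀ (V : Type) [NormedAddCommGroup V] [InnerProductSpace ℂ V] [FiniteDimensional ℂ V]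
    (ρ : alternatingGroup (Fin n) →* (V ≃ₗᵢ[ℂ] V)), (∀ v : V, (∀ g, ρ g v = v) → v = 0) →
    ∀ U : Submodule ℂ V,
      (∀ v ∈ U, (1 - ε) * ‖v‖ ^ 2 ≤ (∑ i, (⟪ρ (x i) v, v⟫_ℂ).re) / k) →
      (Module.finrank ℂ U : ℝ) ≤ Real.exp (-(n : ℝ) ^ (1 - δ)) * Module.finrank ℂ V

/-- the family `y` contains at least `k` members of the family `x` (with different indices) -/
def Contains {G : Type*} {M L : ℕ} (x : Fin M → G) (k : ℕ) (y : Fin L → G) : Prop :=
  ∃ (σ : Fin k ↪ Fin M) (τ : Fin k ↪ Fin L), ∀ i, y (τ i) = x (σ i)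

/-- the probability of the property `P` for a family of `M` independent random elements, the `i`-th
of which is `g` with probability `w i g` -/
noncomputable def Pr {G : Type*} [Fintype G] {M : ℕ} (w : Fin M → G → ℝ)
    (P : (Fin M → G) → Prop) : ℝ :=
  ∑ x ∈ univ.filter P, ∏ i, w i (x i)

/-- `w i` are probability distributions on `G` with density at most `K` with respect to the uniform
distribution -/
def Spread {G : Type*} [Fintype G] {M : ℕ} (K : ℝ) (w : Fin M → G → ℝ) : Prop :=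
  ∀ i, (∀ g, 0 ≤ w i g) ∧ ∑ g, w i g = 1 ∧ ∀ g, w i g * Fintype.card G ≤ K

theorem reps_of_low {n m k : ℕ} {D ε : ℝ} (x : Fin k → Alt n)
    (hgap : ∀ f ∈ lowLevel n m, ∑ g, f g = 0 → ∑ g, f g * walk x f g ≤ (1 - ε) * ∑ g, f g ^ 2)
    (hD : ∀ j : ℕ, (2 : ℝ) ^ j ≤ D → 4 * j + 5 ≤ n ∧ 4 * j ≤ m) :
    GapOnRepresentations n D ε x := by
  intro V _ _ _ ρ hV v hv
  let I : Submodule ℝ V :=
    { carrier := {w | ∀ g, ρ g w = w}
      add_mem' := fun ha hb g => by rw [map_add, ha g, hb g]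
      zero_mem' := fun g => map_zero _
      smul_mem' := fun c a ha g => by rw [map_smul, ha g] }
  refine Pool.Agent.Q294.AR.gap_reps ρ x ε hgap _ Iᗮ rfl ?_ ?_ ?_ v ?_
  · intro g u hu
    refine (Submodule.mem_orthogonal _ _).2 fun w hw => ?_
    have h1 : ρ g⁻¹ w = w := hw g⁻¹
    rw [real_inner_comm, Pool.Agent.Q294.AR.r_inner, h1, real_inner_comm]
    exact (Submodule.mem_orthogonal _ _).1 hu w hw
  · intro u hu hinv
    exact inner_self_eq_zero.1 ((Submodule.mem_orthogonal _ _).1 hu u hinv)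
  · intro j hj
    refine hD j (le_trans ?_ hV)
    have h1 : 2 ^ j ≤ Module.finrank ℝ V := hj.trans (Submodule.finrank_le _)
    exact_mod_cast h1
  · exact (Submodule.mem_orthogonal _ _).2 fun w hw => hv w hw

/-- average over cyclic shifts -/
theorem shifts {a k : ℕ} (ha : a ≤ k) (hk : 0 < k) (F : Fin k → ℝ) (C : ℝ)
    (h : ∀ e : Fin a ↪ Fin k, C ≤ ∑ i, F (e i)) : k * C ≤ a * ∑ i, F i := by
  have : NeZero k := ⟨hk.ne'⟩
  have h1 : ∀ j : Fin k, C ≤ ∑ i : Fin a, F (Fin.castLE ha i + j) := fun j =>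
    h ((Fin.castLEEmb ha).trans (Equiv.addRight j).toEmbedding)
  have h2 : ∑ _j : Fin k, C ≤ ∑ j : Fin k, ∑ i : Fin a, F (Fin.castLE ha i + j) :=
    sum_le_sum fun j _ => h1 j
  rw [sum_comm] at h2
  have h3 : ∀ i : Fin a, ∑ j : Fin k, F (Fin.castLE ha i + j) = ∑ j, F j := fun i =>
    Equiv.sum_comp (Equiv.addLeft (Fin.castLE ha i)) F
  rw [sum_congr rfl fun i _ => h3 i, sum_const, sum_const, card_univ, card_univ,
    Fintype.card_fin, Fintype.card_fin, nsmul_eq_mul, nsmul_eq_mul] at h2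
  exact h2

/-- the good event for all subfamilies of `a` members passes to all families which contain at least
`k ≥ a` members, with the energy multiplied by `k / a` -/
theorem good_contains {n m a k M L : ℕ} {c : ℝ} (ha : 0 < a) (hk : a ≤ k)
    (x : Fin M → Alt n) (h : ∀ e : Fin a ↪ Fin M, Good1 n m c fun i => x (e i))
    (y : Fin L → Alt n) (hy : Contains x k y) : Good1 n m (c * k / a) y := by
  obtain ⟨σ, τ, hστ⟩ := hy
  intro j h1 h2 v hv
  have hk0 : 0 < k := by omega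
  have hs := shifts hk hk0 (fun i : Fin k => ‖repA j n (x (σ i)) v - v‖ ^ 2) (c * ‖v‖ ^ 2)
    (fun e => h (e.trans σ) j h1 h2 v hv)
  have h3 : ∑ i : Fin k, ‖repA j n (x (σ i)) v - v‖ ^ 2 ≤ En (repA j n) y v := by
    unfold En
    have e1 : ∑ i : Fin k, ‖repA j n (x (σ i)) v - v‖ ^ 2 =
        ∑ i ∈ (Finset.univ : Finset (Fin k)).map τ, ‖repA j n (y i) v - v‖ ^ 2 := by
      rw [Finset.sum_map]
      exact sum_congr rfl fun i _ => by rw [hστ i]
    rw [e1]
    exact Finset.sum_le_sum_of_subset_of_nonneg (Finset.subset_univ _)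
      (fun i _ _ => sq_nonneg _)
  have ha0 : (0 : ℝ) < a := by exact_mod_cast ha
  refine le_trans ?_ h3
  rw [div_mul_eq_mul_div, div_le_iff₀ ha0]
  calc c * k * ‖v‖ ^ 2 = k * (c * ‖v‖ ^ 2) := by ring
    _ ≤ _ := hs
    _ = _ := by ring

section prob
variable {G : Type*} [Fintype G] {M : ℕ}

theorem Pr_mono {w : Fin M → G → ℝ} {K : ℝ} (hw : Spread K w) {P Q : (Fin M → G) → Prop}
    (h : ∀ x, P x → Q x) : Pr w P ≤ Pr w Q := by
  unfold Pr
  refine sum_le_sum_of_subset_of_nonneg ?_ fun x _ _ => prod_nonneg fun i _ => (hw i).1 _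
  intro x hx
  rw [mem_filter] at hx ⊢
  exact ⟨hx.1, h x hx.2⟩

/-- the indicator of a proposition -/
noncomputable def ind (p : Prop) : ℝ := if p then 1 else 0

omit [Fintype G] in
theorem ind_true {p : Prop} (h : p) : ind p = 1 := if_pos h

theorem ind_false {p : Prop} (h : ¬ p) : ind p = 0 := if_neg h

theorem ind_nonneg (p : Prop) : 0 ≤ ind p := by
  unfold ind
  split_ifs <;> norm_num

theorem ind_le (p : Prop) : ind p ≤ 1 := by
  unfold ind
  split_ifs <;> norm_num

theorem Pr_eq (w : Fin M → G → ℝ) (P : (Fin M → G) → Prop) :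
    Pr w P = ∑ x, ind (P x) * ∏ i, w i (x i) := by
  unfold Pr
  rw [sum_filter]
  refine sum_congr rfl fun x _ => ?_
  by_cases h : P x
  · rw [if_pos h, ind_true h, one_mul]
  · rw [if_neg h, ind_false h, zero_mul]

/-- a given value of a subfamily has probability at most `(K / |G|)^a` -/
theorem Pr_eq_le {w : Fin M → G → ℝ} {K : ℝ} (hw : Spread K w) {a : ℕ} (e : Fin a ↪ Fin M)
    (u : Fin a → G) :
    Pr w (fun x => ∀ i, x (e i) = u i) * (Fintype.card G : ℝ) ^ a ≤ K ^ a := by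
  have h1 : Pr w (fun x => ∀ i, x (e i) = u i) =
      ∏ i : Fin M, ∑ g : G, w i g * ind (∀ j, e j = i → g = u j) := by
    rw [Pr_eq, Finset.prod_univ_sum, Fintype.piFinset_univ]
    refine sum_congr rfl fun x _ => ?_
    rw [prod_mul_distrib, mul_comm]
    congr 1
    by_cases hx : ∀ i, x (e i) = u i
    · rw [ind_true hx, prod_eq_one]
      intro i _
      refine ind_true ?_
      rintro j rfl
      exact hx j
    · rw [ind_false hx]
      push Not at hx
      obtain ⟨j, hj⟩ := hx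
      refine (prod_eq_zero (mem_univ (e j)) (ind_false ?_)).symm
      exact fun h => hj (h j rfl)
  have h2 : (Fintype.card G : ℝ) ^ a = ∏ i : Fin M, if i ∈ univ.map e then (Fintype.card G : ℝ)
      else 1 := by
    rw [prod_ite_mem, univ_inter, prod_const, card_map, card_univ, Fintype.card_fin]
  have h3 : K ^ a = ∏ i : Fin M, if i ∈ univ.map e then K else 1 := by
    rw [prod_ite_mem, univ_inter, prod_const, card_map, card_univ, Fintype.card_fin]
  rw [h1, h2, h3, ← prod_mul_distrib]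
  refine prod_le_prod (fun i _ => ?_) fun i _ => ?_
  · refine mul_nonneg (sum_nonneg fun g _ => mul_nonneg ((hw i).1 g) (ind_nonneg _)) ?_
    split_ifs <;> positivity
  · split_ifs with hi
    · obtain ⟨j, -, rfl⟩ := mem_map.1 hi
      have h4 : ∑ g : G, w (e j) g * ind (∀ j', e j' = e j → g = u j') ≤ w (e j) (u j) := by
        have h5 : w (e j) (u j) = ∑ g : G, w (e j) g * ind (g = u j) := by
          rw [sum_eq_single (u j), ind_true rfl, mul_one]
          · intro g _ hg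
            rw [ind_false hg, mul_zero]
          · exact fun h => absurd (mem_univ _) h
        rw [h5]
        refine sum_le_sum fun g _ => mul_le_mul_of_nonneg_left ?_ ((hw _).1 _)
        by_cases hg : g = u j
        · rw [ind_true hg]
          exact ind_le _
        · rw [ind_false hg, ind_false]
          exact fun h => hg (h j rfl)
      have hc : (0 : ℝ) ≤ Fintype.card G := by positivity
      exact (mul_le_mul_of_nonneg_right h4 hc).trans ((hw _).2.2 _)
    · rw [mul_one]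
      refine le_trans (sum_le_sum fun g _ => ?_) (hw i).2.1.le
      exact mul_le_of_le_one_right ((hw _).1 _) (ind_le _)

/-- the union bound -/
theorem Pr_sub_le [Nonempty G] {w : Fin M → G → ℝ} {K : ℝ} (hw : Spread K w) (hK : 0 ≤ K)
    {a : ℕ} (P : (Fin a → G) → Prop) {B : ℝ}
    (hP : (Nat.card {u : Fin a → G // P u} : ℝ) ≤ B * (Fintype.card G : ℝ) ^ a) :
    Pr w (fun x => ∃ e : Fin a ↪ Fin M, P fun i => x (e i)) ≤ (M : ℝ) ^ a * (B * K ^ a) := by
  have hG : (0 : ℝ) < Fintype.card G := by exact_mod_cast Fintype.card_pos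
  have h1 : Pr w (fun x => ∃ e : Fin a ↪ Fin M, P fun i => x (e i)) ≤
      ∑ e : Fin a ↪ Fin M, ∑ u : Fin a → G, ind (P u) * Pr w (fun x => ∀ i, x (e i) = u i) := by
    have h0 : ∀ x : Fin M → G, 0 ≤ ∏ i, w i (x i) := fun x => prod_nonneg fun i _ => (hw i).1 _
    have h11 : ∀ x : Fin M → G, ind (∃ e : Fin a ↪ Fin M, P fun i => x (e i)) ≤
        ∑ e : Fin a ↪ Fin M, ∑ u : Fin a → G, ind (P u) * ind (∀ i, x (e i) = u i) := by
      intro x
      have hn : ∀ (e : Fin a ↪ Fin M) (u : Fin a → G),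
          0 ≤ ind (P u) * ind (∀ i, x (e i) = u i) := fun e u =>
        mul_nonneg (ind_nonneg _) (ind_nonneg _)
      by_cases hx : ∃ e : Fin a ↪ Fin M, P fun i => x (e i)
      · rw [ind_true hx]
        obtain ⟨e, he⟩ := hx
        refine le_trans ?_ (single_le_sum (f := fun e : Fin a ↪ Fin M => ∑ u : Fin a → G,
          ind (P u) * ind (∀ i, x (e i) = u i))
          (fun e _ => sum_nonneg fun u _ => hn e u) (mem_univ e))
        refine le_trans ?_ (single_le_sum (f := fun u : Fin a → G =>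
          ind (P u) * ind (∀ i, x (e i) = u i)) (fun u _ => hn e u)
          (mem_univ fun i => x (e i)))
        show 1 ≤ ind (P fun i => x (e i)) * ind (∀ i, x (e i) = x (e i))
        rw [ind_true he, ind_true fun _ => rfl, one_mul]
      · rw [ind_false hx]
        exact sum_nonneg fun e _ => sum_nonneg fun u _ => hn e u
    have h12 : ∑ e : Fin a ↪ Fin M, ∑ u : Fin a → G,
        ind (P u) * Pr w (fun x => ∀ i, x (e i) = u i) =
        ∑ x : Fin M → G, (∑ e : Fin a ↪ Fin M, ∑ u : Fin a → G,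
          ind (P u) * ind (∀ i, x (e i) = u i)) * ∏ i, w i (x i) := by
      simp only [sum_mul, Pr_eq, mul_sum]
      rw [sum_comm (s := (univ : Finset (Fin M → G)))]
      refine sum_congr rfl fun e _ => ?_
      rw [sum_comm (s := (univ : Finset (Fin M → G)))]
      refine sum_congr rfl fun u _ => sum_congr rfl fun x _ => ?_
      ring
    rw [h12, Pr_eq]
    exact sum_le_sum fun x _ => mul_le_mul_of_nonneg_right (h11 x) (h0 x)
  have h2 : ∀ (e : Fin a ↪ Fin M) (u : Fin a → G),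
      Pr w (fun x => ∀ i, x (e i) = u i) ≤ K ^ a / (Fintype.card G : ℝ) ^ a := fun e u => by
    rw [le_div_iff₀ (by positivity)]
    exact Pr_eq_le hw e u
  have h3 : ∑ u : Fin a → G, ind (P u) ≤ B * (Fintype.card G : ℝ) ^ a := by
    refine le_trans (le_of_eq ?_) hP
    rw [Nat.card_eq_fintype_card, Fintype.card_subtype, card_filter]
    push_cast
    refine sum_congr rfl fun u _ => ?_
    unfold ind
    split_ifs <;> rfl
  have h4 : (Fintype.card (Fin a ↪ Fin M) : ℝ) ≤ (M : ℝ) ^ a := by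
    have h5 := Fintype.card_embedding_eq (α := Fin a) (β := Fin M)
    rw [Fintype.card_fin, Fintype.card_fin] at h5
    rw [h5]
    exact_mod_cast Nat.descFactorial_le_pow M a
  have h6 : 0 ≤ K ^ a / (Fintype.card G : ℝ) ^ a := by positivity
  calc _ ≤ _ := h1
    _ ≤ ∑ e : Fin a ↪ Fin M, ∑ u : Fin a → G,
          ind (P u) * (K ^ a / (Fintype.card G : ℝ) ^ a) :=
        sum_le_sum fun e _ => sum_le_sum fun u _ =>
          mul_le_mul_of_nonneg_left (h2 e u) (ind_nonneg _)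
    _ = Fintype.card (Fin a ↪ Fin M) * ((∑ u : Fin a → G, ind (P u)) *
          (K ^ a / (Fintype.card G : ℝ) ^ a)) := by
        rw [sum_const, nsmul_eq_mul, card_univ, sum_mul]
    _ ≤ (M : ℝ) ^ a * ((B * (Fintype.card G : ℝ) ^ a) *
          (K ^ a / (Fintype.card G : ℝ) ^ a)) := by
        have h7 : 0 ≤ (∑ u : Fin a → G, ind (P u)) * (K ^ a / (Fintype.card G : ℝ) ^ a) :=
          mul_nonneg (sum_nonneg fun u _ => ind_nonneg _) h6
        exact mul_le_mul h4 (mul_le_mul_of_nonneg_right h3 h6) h7 (by positivity)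
    _ = (M : ℝ) ^ a * (B * K ^ a) := by
        field_simp

end prob

/-- `t` disjoint blocks all have the property `P` -/
def blocks {G : Type*} {a : ℕ} (t : ℕ) (P : (Fin a → G) → Prop) (u : Fin (t * a) → G) : Prop :=
  ∀ i : Fin t, P fun j => u (finProdFinEquiv (i, j))

theorem card_blocks {G : Type*} [Fintype G] {a : ℕ} (t : ℕ) (P : (Fin a → G) → Prop) :
    Nat.card {u : Fin (t * a) → G // blocks t P u} ≤ Nat.card {v : Fin a → G // P v} ^ t := by
  have h1 : Nat.card (Fin t → {v : Fin a → G // P v}) = Nat.card {v : Fin a → G // P v} ^ t := by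
    rw [Nat.card_fun, Nat.card_eq_fintype_card (α := Fin t), Fintype.card_fin]
  rw [← h1]
  refine Nat.card_le_card_of_injective
    (fun u : {u : Fin (t * a) → G // blocks t P u} =>
      fun i : Fin t => (⟨fun j => u.1 (finProdFinEquiv (i, j)), u.2 i⟩ : {v : Fin a → G // P v}))
    ?_
  intro u v huv
  apply Subtype.ext
  funext l
  obtain ⟨⟨i, j⟩, rfl⟩ := finProdFinEquiv.surjective l
  have h2 := congrFun huv i
  exact congrFun (congrArg Subtype.val h2) j

/-- the union bound for a property of `a` elements of `A_n` of probability `O(1/n)` -/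
theorem bad_small (a : ℕ) (ha : 1 ≤ a) (B : ℝ) (hB : 0 ≤ B)
    (P : (n : ℕ) → (Fin a → alternatingGroup (Fin n)) → Prop)
    (hP : ∀ᶠ n : ℕ in atTop, (Nat.card {u : Fin a → alternatingGroup (Fin n) // P n u} : ℝ) ≤
      B / (n : ℝ) * (Fintype.card (alternatingGroup (Fin n)) : ℝ) ^ a) :
    ∀ᶠ n : ℕ in atTop, ∀ M : ℕ, (M : ℝ) ≤ (n : ℝ) ^ (1 / (8 * a) : ℝ) →
      ∀ w : Fin M → alternatingGroup (Fin n) → ℝ, Spread ((n : ℝ) ^ (1 / (8 * a) : ℝ)) w →
      ∀ t : ℕ, Pr w (fun x => ∃ e : Fin (t * a) ↪ Fin M, blocks t (P n) fun i => x (e i)) ≤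
        (n : ℝ) ^ (-(1 / 2) * (t : ℝ)) := by
  filter_upwards [hP, ev_const (1 / 4) B (by norm_num), eventually_ge_atTop 1] with n h1 h2 h3
  intro M hM w hw t
  have hn : (0 : ℝ) < n := by exact_mod_cast h3
  have hn1 : (1 : ℝ) ≤ n := by exact_mod_cast h3
  have ha0 : (0 : ℝ) < a := by exact_mod_cast ha
  set K : ℝ := (n : ℝ) ^ (1 / (8 * a) : ℝ) with hK
  have hK0 : 0 ≤ K := by positivity
  have hKa : K ^ a = (n : ℝ) ^ (1 / 8 : ℝ) := by
    rw [hK, ← Real.rpow_natCast, ← Real.rpow_mul hn.le]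
    congr 1
    field_simp
  have h4 : (Nat.card {u : Fin (t * a) → alternatingGroup (Fin n) // blocks t (P n) u} : ℝ) ≤
      (B / (n : ℝ)) ^ t * (Fintype.card (alternatingGroup (Fin n)) : ℝ) ^ (t * a) := by
    have h5 : (Nat.card {u : Fin (t * a) → alternatingGroup (Fin n) // blocks t (P n) u} : ℝ) ≤
        (Nat.card {u : Fin a → alternatingGroup (Fin n) // P n u} : ℝ) ^ t := by
      exact_mod_cast card_blocks t (P n)
    refine h5.trans ((pow_le_pow_left₀ (Nat.cast_nonneg _) h1 t).trans (le_of_eq ?_))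
    rw [mul_pow, ← pow_mul, mul_comm a t]
  refine (Pr_sub_le hw hK0 _ h4).trans ?_
  have h6 : (M : ℝ) ^ (t * a) ≤ ((n : ℝ) ^ (1 / 8 : ℝ)) ^ t := by
    rw [← hKa, ← pow_mul, mul_comm a t]
    exact pow_le_pow_left₀ (Nat.cast_nonneg _) hM _
  have h7 : K ^ (t * a) = ((n : ℝ) ^ (1 / 8 : ℝ)) ^ t := by
    rw [← hKa, ← pow_mul, mul_comm a t]
  have h8 : (n : ℝ) ^ (1 / 8 : ℝ) * (B / n * (n : ℝ) ^ (1 / 8 : ℝ)) ≤ (n : ℝ) ^ (-(1 / 2) : ℝ) := by
    have e1 : (n : ℝ) ^ (1 / 4 : ℝ) * (n : ℝ) ^ (-1 : ℝ) * ((n : ℝ) ^ (1 / 8 : ℝ) *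
        (n : ℝ) ^ (1 / 8 : ℝ)) = (n : ℝ) ^ (-(1 / 2) : ℝ) := by
      rw [← Real.rpow_add hn, ← Real.rpow_add hn, ← Real.rpow_add hn]
      norm_num
    rw [← e1, Real.rpow_neg_one]
    have e2 : (0 : ℝ) ≤ (n : ℝ)⁻¹ * ((n : ℝ) ^ (1 / 8 : ℝ) * (n : ℝ) ^ (1 / 8 : ℝ)) := by
      positivity
    calc (n : ℝ) ^ (1 / 8 : ℝ) * (B / n * (n : ℝ) ^ (1 / 8 : ℝ))
        = B * ((n : ℝ)⁻¹ * ((n : ℝ) ^ (1 / 8 : ℝ) * (n : ℝ) ^ (1 / 8 : ℝ))) := by
          rw [div_eq_mul_inv]; ring
      _ ≤ (n : ℝ) ^ (1 / 4 : ℝ) * ((n : ℝ)⁻¹ * ((n : ℝ) ^ (1 / 8 : ℝ) * (n : ℝ) ^ (1 / 8 : ℝ))) :=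
          mul_le_mul_of_nonneg_right h2 e2
      _ = _ := by ring
  calc (M : ℝ) ^ (t * a) * ((B / (n : ℝ)) ^ t * K ^ (t * a))
      ≤ ((n : ℝ) ^ (1 / 8 : ℝ)) ^ t * ((B / (n : ℝ)) ^ t * ((n : ℝ) ^ (1 / 8 : ℝ)) ^ t) := by
        rw [h7]
        exact mul_le_mul_of_nonneg_right h6 (by positivity)
    _ = ((n : ℝ) ^ (1 / 8 : ℝ) * (B / n * (n : ℝ) ^ (1 / 8 : ℝ))) ^ t := by
        rw [mul_pow, mul_pow]
    _ ≤ ((n : ℝ) ^ (-(1 / 2) : ℝ)) ^ t := pow_le_pow_left₀ (by positivity) h8 t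
    _ = (n : ℝ) ^ (-(1 / 2) * (t : ℝ)) := by
        rw [← Real.rpow_natCast, ← Real.rpow_mul hn.le]

/-- if no `t` disjoint blocks are all bad, then `2 t` disjoint blocks have energy at least `t c` -/
theorem good_blocks {n m a t M : ℕ} {c : ℝ} (hc : 0 ≤ c) (x : Fin M → Alt n)
    (h : ¬ ∃ e : Fin (t * a) ↪ Fin M,
      blocks t (fun u : Fin a → Alt n => ¬ Good1 n m c u) fun i => x (e i))
    (e : Fin (2 * t * a) ↪ Fin M) : Good1 n m (c * t) fun i => x (e i) := by
  set S : Finset (Fin (2 * t)) :=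
    univ.filter fun i => ¬ Good1 n m c fun j => x (e (finProdFinEquiv (i, j))) with hS
  have hcard : S.card < t := by
    by_contra hcon
    push Not at hcon
    obtain ⟨S', hS', hc'⟩ := exists_subset_card_eq hcon
    let s : Fin t ↪ Fin (2 * t) := (S'.orderEmbOfFin hc').toEmbedding
    refine h ⟨(finProdFinEquiv (m := t) (n := a)).symm.toEmbedding.trans
      ((s.prodMap (Function.Embedding.refl (Fin a))).trans
        (finProdFinEquiv.toEmbedding.trans e)), fun i => ?_⟩
    have h1 : s i ∈ S := hS' (S'.orderEmbOfFin_mem hc' i)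
    rw [hS, mem_filter] at h1
    have h2 := h1.2
    simpa using h2
  intro j h1 h2 v hv
  have e1 : En (repA j n) (fun i => x (e i)) v =
      ∑ i : Fin (2 * t), En (repA j n) (fun l : Fin a => x (e (finProdFinEquiv (i, l)))) v := by
    unfold En
    rw [← Equiv.sum_comp finProdFinEquiv, Fintype.sum_prod_type]
  have e2 : ∑ _i ∈ Sᶜ, c * ‖v‖ ^ 2 ≤
      ∑ i ∈ Sᶜ, En (repA j n) (fun l : Fin a => x (e (finProdFinEquiv (i, l)))) v := by
    refine sum_le_sum fun i hi => ?_
    have hi' : Good1 n m c fun l => x (e (finProdFinEquiv (i, l))) := by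
      by_contra hcon
      exact (mem_compl.1 hi) (mem_filter.2 ⟨mem_univ _, hcon⟩)
    exact hi' j h1 h2 v hv
  have e3 : ∑ i ∈ Sᶜ, En (repA j n) (fun l : Fin a => x (e (finProdFinEquiv (i, l)))) v ≤
      ∑ i : Fin (2 * t), En (repA j n) (fun l : Fin a => x (e (finProdFinEquiv (i, l)))) v :=
    sum_le_sum_of_subset_of_nonneg (subset_univ _) fun i _ _ => sum_nonneg fun l _ => sq_nonneg _
  rw [sum_const, nsmul_eq_mul] at e2
  rw [e1]
  refine le_trans ?_ (e2.trans e3)
  have h5 : (t : ℝ) ≤ (Sᶜ.card : ℝ) := by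
    have h6 : Sᶜ.card = 2 * t - S.card := by rw [Finset.card_compl, Fintype.card_fin]
    have h7 : t ≤ Sᶜ.card := by omega
    exact_mod_cast h7
  calc c * t * ‖v‖ ^ 2 = t * (c * ‖v‖ ^ 2) := by ring
    _ ≤ (Sᶜ.card : ℝ) * (c * ‖v‖ ^ 2) := mul_le_mul_of_nonneg_right h5 (by positivity)

theorem result (δ : ℝ) (hδ : 0 < δ) : ∃ (a : ℕ) (γ ε : ℝ), 1 ≤ a ∧ 0 < γ ∧ 0 < ε ∧
    (∀ᶠ n : ℕ in atTop, ∀ M : ℕ, (M : ℝ) ≤ (n : ℝ) ^ γ →
      ∀ w : Fin M → alternatingGroup (Fin n) → ℝ, Spread ((n : ℝ) ^ γ) w → ∀ q : ℕ, a ≤ q →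
      Pr w (fun x => ¬ ∀ k L : ℕ, q ≤ k → ∀ y : Fin L → alternatingGroup (Fin n),
        Contains x k y → GapOnRepresentations n (Real.exp ((n : ℝ) ^ (1 - δ))) (ε * k / L) y) ≤
          (n : ℝ) ^ (-γ * q)) ∧
    ∀ L : ℕ, ∃ ε' : ℝ, 0 < ε' ∧ ∀ᶠ n : ℕ in atTop, ∀ M : ℕ, (M : ℝ) ≤ (n : ℝ) ^ γ →
      ∀ w : Fin M → alternatingGroup (Fin n) → ℝ, Spread ((n : ℝ) ^ γ) w → ∀ q : ℕ, a ≤ q →
      Pr w (fun x => ¬ ∀ y : Fin L → alternatingGroup (Fin n),
        Contains x q y → AlmostGap n δ ε' y) ≤ (n : ℝ) ^ (-γ * q) := by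
  set δ' : ℝ := min δ (1 / 2) with hδ'
  have hδ0 : 0 < δ' := lt_min hδ (by norm_num)
  have hδ1 : δ' ≤ 1 / 2 := min_le_right _ _
  have hδδ : δ' ≤ δ := min_le_left _ _
  obtain ⟨k0, hk0⟩ := TE852.GAPE (1 - δ' / 4) (TE852.TEMAIN (1 - δ' / 4) (by linarith))
  obtain ⟨a0, ha0⟩ : ∃ a0 : ℕ, a0 = k0 + 1 := ⟨_, rfl⟩
  obtain ⟨c, hc, B, hB, hgap⟩ := hk0 a0 (by omega)
  have ha1 : 1 ≤ a0 := by omega
  have ha0' : (0 : ℝ) < a0 := by exact_mod_cast ha1
  have hbad := bad_small a0 ha1 B hB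
    (fun n u => ¬ Good1 n (TE852.Rr (1 - δ' / 4) n) c u) hgap
  -- the number of blocks for a given `q`
  have hq : ∀ q : ℕ, 2 * a0 ≤ q → ∃ t : ℕ, 1 ≤ t ∧ 2 * t * a0 ≤ q ∧ ∀ n : ℕ, 1 ≤ n →
      (n : ℝ) ^ (-(1 / 2) * (t : ℝ)) ≤ (n : ℝ) ^ (-(1 / (8 * a0) : ℝ) * q) := by
    intro q hq
    have h1 := Nat.div_add_mod q (2 * a0)
    have h2 := Nat.mod_lt q (show 0 < 2 * a0 by omega)
    have h3 : 1 ≤ q / (2 * a0) := (Nat.one_le_div_iff (by omega)).2 hq
    refine ⟨q / (2 * a0), h3, ?_, fun n hn => ?_⟩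
    · calc 2 * (q / (2 * a0)) * a0 = 2 * a0 * (q / (2 * a0)) := by ring
        _ ≤ q := by omega
    · have hn1 : (1 : ℝ) ≤ n := by exact_mod_cast hn
      refine Real.rpow_le_rpow_of_exponent_le hn1 ?_
      have h4 : q ≤ 4 * a0 * (q / (2 * a0)) := by
        have h5 : 2 * a0 ≤ 2 * a0 * (q / (2 * a0)) := Nat.le_mul_of_pos_right _ h3
        calc q ≤ 2 * a0 * (q / (2 * a0)) + 2 * a0 * (q / (2 * a0)) := by omega
          _ = _ := by ring
      have h6 : (q : ℝ) ≤ 4 * a0 * ((q / (2 * a0) : ℕ) : ℝ) := by exact_mod_cast h4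
      have h7 : (1 / (8 * a0) : ℝ) * q ≤ 1 / 2 * ((q / (2 * a0) : ℕ) : ℝ) := by
        rw [div_mul_eq_mul_div, one_mul, div_le_iff₀ (by positivity)]
        calc (q : ℝ) ≤ 4 * a0 * ((q / (2 * a0) : ℕ) : ℝ) := h6
          _ = _ := by ring
      linarith
  refine ⟨2 * a0, 1 / (8 * a0), c / (4 * a0), by omega, by positivity, by positivity, ?_,
    fun L => ?_⟩
  · have hm2 : ∀ᶠ n : ℕ in atTop, TE852.Rr (1 - δ / 2) n + 2 ≤ n := by
      filter_upwards [ev_le (1 - δ / 2) 1 2 (by linarith), eventually_ge_atTop 4] with n h1 h2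
      have h3 : (TE852.Rr (1 - δ / 2) n : ℝ) ≤ (n : ℝ) ^ (1 - δ / 2) :=
        Nat.floor_le (by positivity)
      rw [Real.rpow_one] at h1
      have h4 : (4 : ℝ) ≤ n := by exact_mod_cast h2
      have h5 : (TE852.Rr (1 - δ / 2) n : ℝ) + 2 ≤ n := by linarith
      exact_mod_cast h5
    have h1 : ∀ᶠ n : ℕ in atTop, 6 ≤ (n : ℝ) ^ (δ / 2) :=
      ((tendsto_rpow_atTop (by linarith)).comp tendsto_natCast_atTop_atTop).eventually_ge_atTop 6
    have h2 : ∀ᶠ n : ℕ in atTop, 12 ≤ (n : ℝ) ^ δ :=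
      ((tendsto_rpow_atTop hδ).comp tendsto_natCast_atTop_atTop).eventually_ge_atTop 12
    have hev : ∀ᶠ n : ℕ in atTop, ∀ j : ℕ, (2 : ℝ) ^ j ≤ Real.exp ((n : ℝ) ^ (1 - δ)) →
        4 * j + 5 ≤ n ∧ 4 * j ≤ TE852.Rr (1 - δ / 2) n := by
      filter_upwards [h1, h2, eventually_ge_atTop 10] with n h1 h2 h3 j hj
      have hn : (0 : ℝ) < n := by
        have : (0 : ℕ) < n := by omega
        exact_mod_cast this
      have h4 : (j : ℝ) * Real.log 2 ≤ (n : ℝ) ^ (1 - δ) := by
        have := Real.log_le_log (by positivity) hj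
        rwa [Real.log_exp, Real.log_pow] at this
      have h5 : (2 / 3 : ℝ) < Real.log 2 := by
        have := Real.log_two_gt_d9
        linarith
      have h6 : (4 * j : ℝ) ≤ 6 * (n : ℝ) ^ (1 - δ) := by
        have hj0 : (0 : ℝ) ≤ j := Nat.cast_nonneg j
        nlinarith
      have h7 : (n : ℝ) ^ (1 - δ / 2) = (n : ℝ) ^ (δ / 2) * (n : ℝ) ^ (1 - δ) := by
        rw [← Real.rpow_add hn]; ring_nf
      have h8 : (n : ℝ) = (n : ℝ) ^ δ * (n : ℝ) ^ (1 - δ) := by
        rw [← Real.rpow_add hn]; ring_nf; rw [Real.rpow_one]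
      have h9 : 0 < (n : ℝ) ^ (1 - δ) := Real.rpow_pos_of_pos hn _
      constructor
      · have h10 : (4 * j : ℝ) ≤ n / 2 := by
          rw [h8]
          nlinarith
        have h11 : (10 : ℝ) ≤ n := by exact_mod_cast h3
        have h12 : (4 * j + 5 : ℝ) ≤ n := by linarith
        exact_mod_cast h12
      · refine Nat.le_floor ?_
        push_cast
        rw [h7]
        nlinarith
    filter_upwards [hbad, hm2, hev, eventually_ge_atTop 1] with n h3 h4 h5 h6
    intro M hM w hw q hqa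
    obtain ⟨t, ht1, htq, htn⟩ := hq q hqa
    have htR : (0 : ℝ) < t := by exact_mod_cast ht1
    have hta : 0 < 2 * t * a0 := by positivity
    refine ((Pr_mono hw fun x hx => ?_).trans (h3 M hM w hw t)).trans (htn n h6)
    by_contra hcon
    refine hx fun k L hk y hy => ?_
    have hg := good_contains hta (htq.trans hk) x (good_blocks hc.le x hcon) y hy
    have hk1 : 1 ≤ k := by omega
    have hL1 : 1 ≤ L := by
      obtain ⟨σ, τ, hστ⟩ := hy
      exact Nat.lt_of_le_of_lt (Nat.zero_le _) (τ ⟨0, hk1⟩).2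
    have hn1 : (1 : ℝ) ≤ n := by exact_mod_cast h6
    have hmm : TE852.Rr (1 - δ / 2) n ≤ TE852.Rr (1 - δ' / 4) n :=
      Nat.floor_mono (Real.rpow_le_rpow_of_exponent_le hn1 (by linarith))
    have hg' : Good1 n (TE852.Rr (1 - δ / 2) n) (c * t * k / (2 * t * a0 : ℕ)) y :=
      fun j hj1 hj2 => hg j hj1 (hj2.trans hmm)
    have hgap' := (Pool.Agent.Results.MP_75608d_al.GapAllTuples.gap_of_good n _ L h4 hL1 _ y
      hg').1
    have he : c / (4 * a0) * k / L = c * t * k / (2 * t * a0 : ℕ) / (2 * L) := by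
      have hL0 : (0 : ℝ) < L := by exact_mod_cast hL1
      push_cast
      field_simp
      ring
    rw [he]
    exact reps_of_low y hgap' h5
  · rcases Nat.eq_zero_or_pos L with hL | hL
    · subst hL
      refine ⟨1, one_pos, ?_⟩
      filter_upwards [hbad, eventually_ge_atTop 1] with n h3 h6
      intro M hM w hw q hqa
      obtain ⟨t, ht1, htq, htn⟩ := hq q hqa
      refine ((Pr_mono hw fun x hx => ?_).trans (h3 M hM w hw t)).trans (htn n h6)
      exfalso
      refine hx fun y hy => ?_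
      obtain ⟨σ, τ, hστ⟩ := hy
      exact (τ ⟨0, by omega⟩).elim0
    · obtain ⟨ε, hε, hpar⟩ := Pool.Agent.Q115.AG.par δ' hδ0 hδ1 L hL c hc
      refine ⟨ε, hε, ?_⟩
      filter_upwards [hbad, hpar, eventually_ge_atTop 1] with n h3 h4 h5
      intro M hM w hw q hqa
      obtain ⟨t, ht1, htq, htn⟩ := hq q hqa
      have htR : (1 : ℝ) ≤ t := by exact_mod_cast ht1
      have hta : 0 < 2 * t * a0 := by positivity
      refine ((Pr_mono hw fun x hx => ?_).trans (h3 M hM w hw t)).trans (htn n h5)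
      by_contra hcon
      refine hx fun y hy => ?_
      have hg := good_contains hta htq x (good_blocks hc.le x hcon) y hy
      have hcc : c ≤ c * t * q / (2 * t * a0 : ℕ) := by
        have hta0 : (0 : ℝ) < (2 * t * a0 : ℕ) := by exact_mod_cast hta
        rw [le_div_iff₀ hta0]
        have h7 : ((2 * t * a0 : ℕ) : ℝ) ≤ q := by exact_mod_cast htq
        have h8 : c * 1 ≤ c * t := mul_le_mul_of_nonneg_left htR hc.le
        rw [mul_one] at h8
        exact mul_le_mul h8 h7 hta0.le (by positivity)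
      have hg' : Good1 n (TE852.Rr (1 - δ' / 4) n) c y := fun j hj1 hj2 v hv =>
        (mul_le_mul_of_nonneg_right hcc (sq_nonneg _)).trans (hg j hj1 hj2 v hv)
      have hn1 : (1 : ℝ) ≤ n := by exact_mod_cast h5
      intro V _ _ _ ρ hinv U hU
      refine (h4 y hg' V ρ hinv U hU).trans ?_
      refine mul_le_mul_of_nonneg_right (Real.exp_le_exp.2 ?_) (Nat.cast_nonneg _)
      have : (n : ℝ) ^ (1 - δ) ≤ (n : ℝ) ^ (1 - δ') :=
        Real.rpow_le_rpow_of_exponent_le hn1 (by linarith)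
      linarith

end Pool.Agent.Results.MP_75608d_al.EverySubset
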