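import Pool.Agent.Results.MP_75608d_al.EverySubset
import Pool.Agent.H14R2.LL.MAINH

/-!
# All large subsets of a random set of even permutations are expanding generating sets

Random even permutations `x_1, …, x_M`, `M ≤ K = exp (log n / (C (log log n)²))`, independent, each
with a distribution whose density with respect to the uniform distribution of `A_n` is at most `K`.
For every `q ≥ C (log log n)²`, with probability at least `1 - n^(-q / (C (log log n)²))` *every*
choice of at least `q` of them, even after adding arbitrary further generators, generates `A_n` and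
has a spectral gap at least `(log n)^(-C)` (on all functions on `A_n`), up to the proportion of the
random elements among the generators.

Input: the starting result `FewGenerators` for independent uniform elements, with failure
probability `2/√n`. Among `2t` disjoint blocks of `a = O((log log n)²)` elements fewer than `t` are
bad, except with a small probability (union bound over all blocks); an average over cyclic shifts
gives the right constant for all larger families.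
-/

set_option autoImplicit false

namespace Pool.Agent.Results.MP_75608d_al.EverySubsetExpands

open RC14 Finset Filter Topology
open Pool.Agent.Results.MP_75608d_al.EverySubset
open scoped Classical

section energy
variable {G : Type*} [Group G] [Fintype G]

/-- `∑_g (f(g y) - f(g))²` -/
noncomputable def dE (f : G → ℝ) (y : G) : ℝ := ∑ g, (f (g * y) - f g) ^ 2

theorem dE_nonneg (f : G → ℝ) (y : G) : 0 ≤ dE f y := sum_nonneg fun _ _ => sq_nonneg _

theorem dE_eq (f : G → ℝ) (y : G) :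
    dE f y = 2 * ∑ g, f g ^ 2 - ∑ g, f g * (f (g * y) + f (g * y⁻¹)) := by
  have h1 : ∑ g, f (g * y) ^ 2 = ∑ g, f g ^ 2 :=
    Equiv.sum_comp (Equiv.mulRight y) fun g => f g ^ 2
  have h2 : ∑ g, f (g * y) * f g = ∑ g, f g * f (g * y⁻¹) := by
    rw [← Equiv.sum_comp (Equiv.mulRight y) fun g => f g * f (g * y⁻¹)]
    refine sum_congr rfl fun g _ => ?_
    simp [Equiv.coe_mulRight]
  have h3 : dE f y = ∑ g, f (g * y) ^ 2 + ∑ g, f g ^ 2 - ∑ g, f g * f (g * y) -
      ∑ g, f (g * y) * f g := by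
    unfold dE
    rw [← sum_add_distrib, ← sum_sub_distrib, ← sum_sub_distrib]
    refine sum_congr rfl fun g _ => by ring
  rw [h3, h1, h2]
  have h4 : ∑ g, f g * (f (g * y) + f (g * y⁻¹)) = ∑ g, f g * f (g * y) +
      ∑ g, f g * f (g * y⁻¹) := by
    rw [← sum_add_distrib]
    refine sum_congr rfl fun g _ => by ring
  rw [h4]
  ring

theorem walk_energy {k : ℕ} (hk : 1 ≤ k) (x : Fin k → G) (f : G → ℝ) :
    ∑ g, f g * walk x f g = ∑ g, f g ^ 2 - (∑ i, dE f (x i)) / (2 * k) := by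
  have hk0 : (0 : ℝ) < k := by exact_mod_cast hk
  have h1 : ∑ g, f g * walk x f g =
      (∑ i, ∑ g, f g * (f (g * x i) + f (g * (x i)⁻¹))) / (2 * k) := by
    unfold walk
    rw [sum_comm, sum_div]
    refine sum_congr rfl fun g _ => ?_
    rw [mul_div_assoc', mul_sum]
  have h2 : ∑ i, dE f (x i) = k * (2 * ∑ g, f g ^ 2) -
      ∑ i, ∑ g, f g * (f (g * x i) + f (g * (x i)⁻¹)) := by
    rw [sum_congr rfl fun i _ => dE_eq f (x i), sum_sub_distrib, sum_const, card_univ,
      Fintype.card_fin, nsmul_eq_mul]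
  rw [h1, h2]
  field_simp
  ring

/-- an expanding family has a large energy -/
theorem energy_of_expanding {k : ℕ} (hk : 1 ≤ k) {ε : ℝ} {x : Fin k → G} (h : Expanding ε x)
    (f : G → ℝ) (hf : ∑ g, f g = 0) : 2 * k * ε * ∑ g, f g ^ 2 ≤ ∑ i, dE f (x i) := by
  have hk0 : (0 : ℝ) < k := by exact_mod_cast hk
  have h1 := h.2 f hf
  rw [walk_energy hk] at h1
  have h2 : ε * ∑ g, f g ^ 2 ≤ (∑ i, dE f (x i)) / (2 * k) := by linarith
  rw [le_div_iff₀ (by positivity)] at h2
  calc 2 * k * ε * ∑ g, f g ^ 2 = ε * (∑ g, f g ^ 2) * (2 * k) := by ring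
    _ ≤ _ := h2

theorem expanding_mono {k : ℕ} {ε ε' : ℝ} (hε : ε' ≤ ε) {x : Fin k → G} (h : Expanding ε x) :
    Expanding ε' x := by
  refine ⟨h.1, fun f hf => (h.2 f hf).trans ?_⟩
  have : 0 ≤ ∑ g, f g ^ 2 := sum_nonneg fun _ _ => sq_nonneg _
  nlinarith

/-- if no `t` disjoint blocks are all bad, then `2 t` disjoint blocks have a large energy -/
theorem block_energy {a t M : ℕ} (ha : 1 ≤ a) {ε : ℝ} (hε : 0 ≤ ε) (x : Fin M → G)
    (h : ¬ ∃ e : Fin (t * a) ↪ Fin M,
      blocks t (fun u : Fin a → G => ¬ Expanding ε u) fun i => x (e i))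
    (e : Fin (2 * t * a) ↪ Fin M) (f : G → ℝ) (hf : ∑ g, f g = 0) :
    t * (2 * a * ε * ∑ g, f g ^ 2) ≤ ∑ i, dE f (x (e i)) := by
  set S : Finset (Fin (2 * t)) :=
    univ.filter fun i => ¬ Expanding ε fun j => x (e (finProdFinEquiv (i, j))) with hS
  have hcard : S.card < t := by
    by_contra hcon
    push Not at hcon
    obtain ⟨S', hS', hc'⟩ := exists_subset_card_eq hcon
    let s : Fin t ↪ Fin (2 * t) := (S'.orderEmbOfFin hc').toEmbedding
    refine h ⟨(finProdFinEquiv (m := t) (n := a)).symm.toEmbedding.trans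
      ((s.prodMap (Function.Embedding.refl (Fin a))).trans
        (finProdFinEquiv.toEmbedding.trans e)), fun i => ?_⟩
    have h1 : s i ∈ S := hS' (S'.orderEmbOfFin_mem hc' i)
    rw [hS, mem_filter] at h1
    have h2 := h1.2
    simpa using h2
  have e1 : ∑ i, dE f (x (e i)) =
      ∑ i : Fin (2 * t), ∑ l : Fin a, dE f (x (e (finProdFinEquiv (i, l)))) := by
    rw [← Equiv.sum_comp finProdFinEquiv, Fintype.sum_prod_type]
  have e2 : ∑ _i ∈ Sᶜ, 2 * a * ε * ∑ g, f g ^ 2 ≤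
      ∑ i ∈ Sᶜ, ∑ l : Fin a, dE f (x (e (finProdFinEquiv (i, l)))) := by
    refine sum_le_sum fun i hi => ?_
    have hi' : Expanding ε fun l => x (e (finProdFinEquiv (i, l))) := by
      by_contra hcon
      exact (mem_compl.1 hi) (mem_filter.2 ⟨mem_univ _, hcon⟩)
    exact energy_of_expanding ha hi' f hf
  have e3 : ∑ i ∈ Sᶜ, ∑ l : Fin a, dE f (x (e (finProdFinEquiv (i, l)))) ≤
      ∑ i : Fin (2 * t), ∑ l : Fin a, dE f (x (e (finProdFinEquiv (i, l)))) :=
    sum_le_sum_of_subset_of_nonneg (subset_univ _) fun i _ _ =>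
      sum_nonneg fun l _ => dE_nonneg _ _
  rw [sum_const, nsmul_eq_mul] at e2
  rw [e1]
  refine le_trans ?_ (e2.trans e3)
  have h5 : (t : ℝ) ≤ (Sᶜ.card : ℝ) := by
    have h6 : Sᶜ.card = 2 * t - S.card := by rw [Finset.card_compl, Fintype.card_fin]
    have h7 : t ≤ Sᶜ.card := by omega
    exact_mod_cast h7
  exact mul_le_mul_of_nonneg_right h5 (by positivity)

/-- all large subfamilies are expanding, with arbitrary further generators -/
theorem expanding_contains {a t M k L : ℕ} (ha : 1 ≤ a) (ht : 1 ≤ t) {ε : ℝ} (hε : 0 ≤ ε)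
    (x : Fin M → G)
    (h : ¬ ∃ e : Fin (t * a) ↪ Fin M,
      blocks t (fun u : Fin a → G => ¬ Expanding ε u) fun i => x (e i))
    (hk : 2 * t * a ≤ k) (y : Fin L → G) (hy : Contains x k y) :
    Expanding (ε / 2 * k / L) y := by
  obtain ⟨σ, τ, hστ⟩ := hy
  have hta : 0 < 2 * t * a := by positivity
  have hk0 : 0 < k := by omega
  have hL : 1 ≤ L := Nat.lt_of_le_of_lt (Nat.zero_le _) (τ ⟨0, hk0⟩).2
  have hL0 : (0 : ℝ) < L := by exact_mod_cast hL
  refine ⟨?_, fun f hf => ?_⟩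
  · have hle : t * a ≤ k := by
      have : 2 * t * a = t * a + t * a := by ring
      omega
    push Not at h
    have h1 := h ((Fin.castLEEmb hle).trans σ)
    unfold blocks at h1
    push Not at h1
    obtain ⟨i, hi⟩ := h1
    refine eq_top_iff.2 ?_
    rw [← hi.1]
    refine Subgroup.closure_mono ?_
    rintro _ ⟨j, rfl⟩
    refine ⟨τ (Fin.castLE hle (finProdFinEquiv (i, j))), ?_⟩
    rw [hστ]
    rfl
  · have h2 := shifts hk hk0 (fun i : Fin k => dE f (x (σ i)))
      (t * (2 * a * ε * ∑ g, f g ^ 2)) (fun e => block_energy ha hε x h (e.trans σ) f hf)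
    have h3 : ∑ i : Fin k, dE f (x (σ i)) ≤ ∑ i : Fin L, dE f (y i) := by
      have e1 : ∑ i : Fin k, dE f (x (σ i)) =
          ∑ i ∈ (Finset.univ : Finset (Fin k)).map τ, dE f (y i) := by
        rw [Finset.sum_map]
        exact sum_congr rfl fun i _ => by rw [hστ i]
      rw [e1]
      exact Finset.sum_le_sum_of_subset_of_nonneg (Finset.subset_univ _)
        (fun i _ _ => dE_nonneg _ _)
    have h4 : (k : ℝ) * (ε * ∑ g, f g ^ 2) ≤ ∑ i : Fin k, dE f (x (σ i)) := by
      have hta0 : (0 : ℝ) < ((2 * t * a : ℕ) : ℝ) := by exact_mod_cast hta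
      have h5 : ((2 * t * a : ℕ) : ℝ) * (k * (ε * ∑ g, f g ^ 2)) ≤
          ((2 * t * a : ℕ) : ℝ) * ∑ i : Fin k, dE f (x (σ i)) := by
        refine le_trans (le_of_eq ?_) h2
        push_cast
        ring
      exact le_of_mul_le_mul_left h5 hta0
    rw [walk_energy hL]
    have h6 : (k : ℝ) * (ε * ∑ g, f g ^ 2) / (2 * L) ≤ (∑ i : Fin L, dE f (y i)) / (2 * L) :=
      div_le_div_of_nonneg_right (h4.trans h3) (by positivity)
    have h7 : ε / 2 * k / L * ∑ g, f g ^ 2 = (k : ℝ) * (ε * ∑ g, f g ^ 2) / (2 * L) := by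
      field_simp
    linarith

end energy

/-- `exp (log n / (C (log log n)²))` -/
noncomputable def size (C : ℝ) (n : ℕ) : ℝ :=
  Real.exp (Real.log n / (C * Real.log (Real.log n) ^ 2))

theorem result : ∃ C : ℝ, 0 < C ∧ ∀ᶠ n : ℕ in atTop, ∀ M : ℕ, (M : ℝ) ≤ size C n →
    ∀ w : Fin M → alternatingGroup (Fin n) → ℝ, Spread (size C n) w →
    ∀ q : ℕ, C * Real.log (Real.log n) ^ 2 ≤ q →
      Pr w (fun x => ¬ ∀ k L : ℕ, q ≤ k → ∀ y : Fin L → alternatingGroup (Fin n),
        Contains x k y → Expanding (Real.log n ^ (-C) * k / L) y) ≤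
          (n : ℝ) ^ (-(q / (C * Real.log (Real.log n) ^ 2))) := by
  obtain ⟨C0, hC0, hmain⟩ := LL14.MAINH
  refine ⟨64 * C0 + 1, by positivity, ?_⟩
  set C : ℝ := 64 * C0 + 1 with hC
  have hC1 : 64 * C0 ≤ C := by rw [hC]; linarith
  have hCpos : 0 < C := by rw [hC]; positivity
  have hlog : Tendsto (fun n : ℕ => Real.log (n : ℝ)) atTop atTop :=
    Real.tendsto_log_atTop.comp tendsto_natCast_atTop_atTop
  have hloglog : Tendsto (fun n : ℕ => Real.log (Real.log (n : ℝ))) atTop atTop :=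
    Real.tendsto_log_atTop.comp hlog
  have e1 : ∀ᶠ n : ℕ in atTop, 1 ≤ Real.log (Real.log (n : ℝ)) :=
    hloglog.eventually_ge_atTop 1
  have e2 : ∀ᶠ n : ℕ in atTop, 1 / C0 ≤ Real.log (Real.log (n : ℝ)) :=
    hloglog.eventually_ge_atTop _
  have e3 : ∀ᶠ n : ℕ in atTop, 2 ≤ Real.log (n : ℝ) := hlog.eventually_ge_atTop 2
  have e4 : ∀ᶠ n : ℕ in atTop, 2 ≤ (n : ℝ) ^ (1 / 8 : ℝ) := ev_const _ _ (by norm_num)
  filter_upwards [hmain, e1, e2, e3, e4, eventually_ge_atTop 1] with n hn h1 h2 h3 h4 h5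
  intro M hM w hw q hq
  obtain ⟨l, hl⟩ : ∃ l : ℝ, l = Real.log (Real.log n) ^ 2 := ⟨_, rfl⟩
  have hn0 : (0 : ℝ) < n := by exact_mod_cast h5
  have hn1 : (1 : ℝ) ≤ n := by exact_mod_cast h5
  have hl1 : 1 ≤ l := by rw [hl]; nlinarith
  have hl2 : 1 ≤ C0 * l := by
    rw [div_le_iff₀ hC0] at h2
    rw [hl]
    nlinarith
  -- the size of the blocks
  obtain ⟨a, ha⟩ : ∃ a : ℕ, a = ⌈C0 * l⌉₊ := ⟨_, rfl⟩
  have ha1 : 1 ≤ a := by
    rw [ha]
    exact Nat.one_le_ceil_iff.2 (by linarith)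
  have haL : C0 * l ≤ a := by rw [ha]; exact Nat.le_ceil _
  have haU : (a : ℝ) ≤ 2 * (C0 * l) := by
    have := (Nat.ceil_lt_add_one (show 0 ≤ C0 * l by linarith)).le
    rw [ha]
    linarith
  have ha0 : (0 : ℝ) < a := by exact_mod_cast ha1
  have h32 : 32 * (a : ℝ) ≤ C * l := by
    have : 64 * C0 * l ≤ C * l := mul_le_mul_of_nonneg_right hC1 (by linarith)
    linarith
  rw [← hl] at hq
  have hCl : 0 < C * l := by positivity
  set ε : ℝ := Real.log n ^ (-C0) with hε
  have hε0 : 0 ≤ ε := by rw [hε]; positivity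
  have hbound := hn a (by rw [← hl]; exact haL)
  -- the number of blocks
  obtain ⟨t, ht⟩ : ∃ t : ℕ, t = q / (2 * a) := ⟨_, rfl⟩
  have hdm := Nat.div_add_mod q (2 * a)
  have hmod := Nat.mod_lt q (show 0 < 2 * a by omega)
  have hqa : 2 * a ≤ q := by
    have : (2 * a : ℝ) ≤ q := by linarith
    exact_mod_cast this
  have ht1 : 1 ≤ t := by
    rw [ht]
    exact (Nat.one_le_div_iff (by omega)).2 hqa
  have htq : 2 * t * a ≤ q := by
    rw [← ht] at hdm
    calc 2 * t * a = 2 * a * t := by ring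
      _ ≤ q := by omega
  have hqt : (q : ℝ) ≤ 4 * a * t := by
    have h6 : q ≤ 4 * a * t := by
      rw [← ht] at hdm
      have h7 : 2 * a ≤ 2 * a * t := Nat.le_mul_of_pos_right _ ht1
      calc q ≤ 2 * a * t + 2 * a * t := by omega
        _ = _ := by ring
    exact_mod_cast h6
  -- the bad event
  set K : ℝ := size C n with hK
  have hK0 : 0 ≤ K := (Real.exp_pos _).le
  have hKa : K ^ a ≤ (n : ℝ) ^ (1 / 8 : ℝ) := by
    rw [hK, size, ← Real.exp_nat_mul, Real.rpow_def_of_pos hn0, ← hl]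
    refine Real.exp_le_exp.2 ?_
    have hlogn : 0 ≤ Real.log n := by linarith
    rw [mul_div_assoc', div_le_iff₀ hCl]
    have : (a : ℝ) * Real.log n ≤ 1 / 8 * (C * l) * Real.log n :=
      mul_le_mul_of_nonneg_right (by linarith) hlogn
    linarith
  have hcardP : (Nat.card {u : Fin (t * a) → alternatingGroup (Fin n) //
      blocks t (fun u : Fin a → alternatingGroup (Fin n) => ¬ Expanding ε u) u} : ℝ) ≤
      (2 / Real.sqrt n) ^ t * (Fintype.card (alternatingGroup (Fin n)) : ℝ) ^ (t * a) := by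
    have h6 : (Nat.card {u : Fin (t * a) → alternatingGroup (Fin n) //
        blocks t (fun u : Fin a → alternatingGroup (Fin n) => ¬ Expanding ε u) u} : ℝ) ≤
        (Nat.card {u : Fin a → alternatingGroup (Fin n) // ¬ Expanding ε u} : ℝ) ^ t := by
      exact_mod_cast card_blocks t (fun u : Fin a → alternatingGroup (Fin n) => ¬ Expanding ε u)
    refine h6.trans ((pow_le_pow_left₀ (Nat.cast_nonneg _) hbound t).trans (le_of_eq ?_))
    rw [mul_pow, ← pow_mul, mul_comm a t]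
  have hsmall : Pr w (fun x => ∃ e : Fin (t * a) ↪ Fin M,
      blocks t (fun u : Fin a → alternatingGroup (Fin n) => ¬ Expanding ε u) fun i => x (e i)) ≤
      (n : ℝ) ^ (-(q / (C * l))) := by
    refine (Pr_sub_le hw hK0 _ hcardP).trans ?_
    have h6 : (M : ℝ) ^ (t * a) ≤ ((n : ℝ) ^ (1 / 8 : ℝ)) ^ t := by
      calc (M : ℝ) ^ (t * a) ≤ K ^ (t * a) := pow_le_pow_left₀ (Nat.cast_nonneg _) hM _
        _ = (K ^ a) ^ t := by rw [← pow_mul, mul_comm a t]
        _ ≤ _ := pow_le_pow_left₀ (by positivity) hKa t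
    have h7 : K ^ (t * a) ≤ ((n : ℝ) ^ (1 / 8 : ℝ)) ^ t := by
      calc K ^ (t * a) = (K ^ a) ^ t := by rw [← pow_mul, mul_comm a t]
        _ ≤ _ := pow_le_pow_left₀ (by positivity) hKa t
    have hsq : (2 : ℝ) / Real.sqrt n = 2 * (n : ℝ) ^ (-(1 / 2) : ℝ) := by
      rw [Real.sqrt_eq_rpow, Real.rpow_neg hn0.le, div_eq_mul_inv]
    have h8 : (n : ℝ) ^ (1 / 8 : ℝ) * (2 / Real.sqrt n * (n : ℝ) ^ (1 / 8 : ℝ)) ≤
        (n : ℝ) ^ (-(1 / 8) : ℝ) := by
      have e5 : (n : ℝ) ^ (1 / 8 : ℝ) * (n : ℝ) ^ (-(1 / 2) : ℝ) * ((n : ℝ) ^ (1 / 8 : ℝ) *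
          (n : ℝ) ^ (1 / 8 : ℝ)) = (n : ℝ) ^ (-(1 / 8) : ℝ) := by
        rw [← Real.rpow_add hn0, ← Real.rpow_add hn0, ← Real.rpow_add hn0]
        norm_num
      rw [hsq, ← e5]
      have e6 : (0 : ℝ) ≤ (n : ℝ) ^ (-(1 / 2) : ℝ) * ((n : ℝ) ^ (1 / 8 : ℝ) *
          (n : ℝ) ^ (1 / 8 : ℝ)) := by positivity
      calc (n : ℝ) ^ (1 / 8 : ℝ) * (2 * (n : ℝ) ^ (-(1 / 2) : ℝ) * (n : ℝ) ^ (1 / 8 : ℝ))
          = 2 * ((n : ℝ) ^ (-(1 / 2) : ℝ) * ((n : ℝ) ^ (1 / 8 : ℝ) *
            (n : ℝ) ^ (1 / 8 : ℝ))) := by ring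
        _ ≤ (n : ℝ) ^ (1 / 8 : ℝ) * ((n : ℝ) ^ (-(1 / 2) : ℝ) * ((n : ℝ) ^ (1 / 8 : ℝ) *
            (n : ℝ) ^ (1 / 8 : ℝ))) := mul_le_mul_of_nonneg_right h4 e6
        _ = _ := by ring
    calc (M : ℝ) ^ (t * a) * ((2 / Real.sqrt n) ^ t * K ^ (t * a))
        ≤ ((n : ℝ) ^ (1 / 8 : ℝ)) ^ t * ((2 / Real.sqrt n) ^ t * ((n : ℝ) ^ (1 / 8 : ℝ)) ^ t) := by
          refine mul_le_mul h6 (mul_le_mul_of_nonneg_left h7 (by positivity)) (by positivity)
            (by positivity)
      _ = ((n : ℝ) ^ (1 / 8 : ℝ) * (2 / Real.sqrt n * (n : ℝ) ^ (1 / 8 : ℝ))) ^ t := by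
          rw [mul_pow, mul_pow]
      _ ≤ ((n : ℝ) ^ (-(1 / 8) : ℝ)) ^ t := pow_le_pow_left₀ (by positivity) h8 t
      _ = (n : ℝ) ^ (-(1 / 8) * (t : ℝ)) := by
          rw [← Real.rpow_natCast, ← Real.rpow_mul hn0.le]
      _ ≤ (n : ℝ) ^ (-(q / (C * l))) := by
          refine Real.rpow_le_rpow_of_exponent_le hn1 ?_
          have h9 : (q : ℝ) / (C * l) ≤ 1 / 8 * t := by
            rw [div_le_iff₀ hCl]
            have htR : (0 : ℝ) ≤ t := Nat.cast_nonneg t
            have h10 : 1 / 8 * (t : ℝ) * (32 * a) ≤ 1 / 8 * t * (C * l) :=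
              mul_le_mul_of_nonneg_left h32 (by positivity)
            linarith
          linarith
  rw [← hl]
  refine (Pr_mono hw fun x hx => ?_).trans hsmall
  by_contra hcon
  refine hx fun k L hk y hy => ?_
  refine expanding_mono ?_ (expanding_contains ha1 ht1 hε0 x hcon (htq.trans hk) y hy)
  have h6 : Real.log n ^ (-C) ≤ ε / 2 := by
    have h7 : Real.log n ^ (-C) ≤ Real.log n ^ (-(C0 + 1)) :=
      Real.rpow_le_rpow_of_exponent_le (by linarith) (by rw [hC]; linarith)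
    have h8 : Real.log n ^ (-(C0 + 1)) = ε * (Real.log n)⁻¹ := by
      rw [hε, ← Real.rpow_neg_one, ← Real.rpow_add (by linarith)]
      congr 1
      ring
    rw [h8] at h7
    refine h7.trans ?_
    rw [div_eq_mul_inv]
    exact mul_le_mul_of_nonneg_left (inv_anti₀ (by norm_num) h3) hε0
  rcases Nat.eq_zero_or_pos L with hL | hL
  · subst hL
    simp
  · have hL0 : (0 : ℝ) < L := by exact_mod_cast hL
    refine div_le_div_of_nonneg_right ?_ hL0.le
    exact mul_le_mul_of_nonneg_right h6 (Nat.cast_nonneg k)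

end Pool.Agent.Results.MP_75608d_al.EverySubsetExpands
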