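import Pool.Agent.Results.MP_75608d_al.GapAllTuples
import Pool.Agent.Q294.AR.Gap

/-!
# Random generators of alternating groups: a uniform gap on all small representations

Let `x_1, …, x_k` be independent uniformly random elements of the alternating group `A_n`, with `k`
fixed.  The Cayley graph is an expander if the averaging operator
`(1/2k) ∑_i (ρ(x_i) + ρ(x_i)⁻¹)` has norm at most `1 - ε` on the orthogonal complement of the
invariant vectors, for every orthogonal representation `ρ` of `A_n`.

**Theorem.** Let `δ > 0`.  There is `k₀` such that for every fixed `k ≥ k₀` there is `ε > 0` such that,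
with probability tending to `1` as `n → ∞`, this holds (as an upper bound of the operator) for all
orthogonal representations of dimension at most `exp(n^{1-δ})`, simultaneously.

For example: *all* Schreier graphs of `A_n` with at most `exp(n^{1-δ})` vertices, that is the graphs
of the actions of `x_1, …, x_k` on the cosets of all subgroups of index at most `exp(n^{1-δ})`, are
`ε`-expanders, with the same `ε` (take the space of functions on the cosets); in particular they have
diameter `O(log |Ω|)`.  Before, this was known to us for the actions on tuples only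
(`GapAllTuples`).

The proof: by `GapAllTuples` there is a gap for the functions on `A_n` of level at most
`m = n^{1-δ/2}`, the span of the functions invariant under the alternating group of the complement of
`m` points.  A nonzero real representation `U` of `A_n` of dimension less than `2^(j+1)` has a
nonzero vector fixed by the alternating group of the complement of at most `4 j` points if
`4 j + 5 ≤ n` (`Pool.Agent.Q294.AR.fixed_vector`): if Klein four-groups with pairwise disjoint
supports of four points have together no fixed vectors in a stable subspace then its dimension is at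
least `2` to their number, because an involution in one of them has both eigenvalues; for a maximal
system the double transpositions of the other points act trivially on this subspace.  For an
irreducible `U` and such a vector `w` the functions `g ↦ (ρ(g) u, w)` are of low level and
`∑_g (ρ(g) u, w) (ρ(g) v, w)` is a positive multiple of `(u, v)`.
-/

set_option autoImplicit false

namespace Pool.Agent.Results.MP_75608d_al.SmallRepresentations

open RC14 Finset Filter Topology
open scoped InnerProductSpace

/-- the averaging operator `(1/2k) ∑_i (ρ(x_i) + ρ(x_i)⁻¹)` of the representation `ρ` -/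
noncomputable def average {n k : ℕ} {V : Type} [NormedAddCommGroup V] [InnerProductSpace ℝ V]
    (ρ : Alt n →* (V ≃ₗᵢ[ℝ] V)) (x : Fin k → Alt n) (v : V) : V :=
  (1 / (2 * k) : ℝ) • ∑ i, (ρ (x i) v + ρ (x i)⁻¹ v)

/-- for all orthogonal representations `ρ` of `A_n` of dimension at most `D` the averaging operator
`P` satisfies `(v, P v) ≤ (1 - ε) (v, v)` for all `v` orthogonal to the invariant vectors -/
def GapOnRepresentations (n : ℕ) (D : ℝ) {k : ℕ} (ε : ℝ) (x : Fin k → Alt n) : Prop :=
  ∀ (V : Type) [NormedAddCommGroup V] [InnerProductSpace ℝ V] [FiniteDimensional ℝ V]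
    (ρ : Alt n →* (V ≃ₗᵢ[ℝ] V)), (Module.finrank ℝ V : ℝ) ≤ D →
    ∀ v : V, (∀ w : V, (∀ g, ρ g w = w) → ⟪w, v⟫_ℝ = 0) →
      ⟪v, average ρ x v⟫_ℝ ≤ (1 - ε) * ‖v‖ ^ 2

theorem reps_of_low {n m k : ℕ} {D ε : ℝ} (x : Fin k → Alt n)
    (hgap : ∀ f ∈ lowLevel n m, ∑ g, f g = 0 → ∑ g, f g * walk x f g ≤ (1 - ε) * ∑ g, f g ^ 2)
    (hD : ∀ j : ℕ, (2 : ℝ) ^ j ≤ D → 4 * j + 5 ≤ n ∧ 4 * j ≤ m) :
    GapOnRepresentations n D ε x := by
  intro V _ _ _ ρ hV v hv
  let I : Submodule ℝ V :=
    { carrier := {w | ∀ g, ρ g w = w}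
      add_mem' := fun ha hb g => by rw [map_add, ha g, hb g]
      zero_mem' := fun g => map_zero _
      smul_mem' := fun c a ha g => by rw [map_smul, ha g] }
  refine Pool.Agent.Q294.AR.gap_reps ρ x ε hgap _ Iᗮ rfl ?_ ?_ ?_ v ?_
  · intro g u hu
    refine (Submodule.mem_orthogonal _ _).2 fun w hw => ?_
    have h1 : ρ g⁻¹ w = w := hw g⁻¹
    rw [real_inner_comm, Pool.Agent.Q294.AR.r_inner, h1, real_inner_comm]
    exact (Submodule.mem_orthogonal _ _).1 hu w hw
  · intro u hu hinv
    exact inner_self_eq_zero.1 ((Submodule.mem_orthogonal _ _).1 hu u hinv)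
  · intro j hj
    refine hD j (le_trans ?_ hV)
    have h1 : 2 ^ j ≤ Module.finrank ℝ V := hj.trans (Submodule.finrank_le _)
    exact_mod_cast h1
  · exact (Submodule.mem_orthogonal _ _).2 fun w hw => hv w hw

theorem result (δ : ℝ) (hδ : 0 < δ) : ∃ k₀ : ℕ, ∀ k ≥ k₀, ∃ ε : ℝ, 0 < ε ∧
    Tendsto (fun n : ℕ =>
      (Nat.card {x : Fin k → Alt n //
        GapOnRepresentations n (Real.exp ((n : ℝ) ^ (1 - δ))) ε x} : ℝ) /
          (Fintype.card (Alt n) : ℝ) ^ k) atTop (𝓝 1) := by
  obtain ⟨k₀, hk₀⟩ := Pool.Agent.Results.MP_75608d_al.GapAllTuples.result (δ / 2) (by linarith)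
  refine ⟨k₀, fun k hk => ?_⟩
  obtain ⟨ε, hε, hlim⟩ := hk₀ k hk
  refine ⟨ε, hε, ?_⟩
  have h1 : ∀ᶠ n : ℕ in atTop, 6 ≤ (n : ℝ) ^ (δ / 2) :=
    ((tendsto_rpow_atTop (by linarith)).comp tendsto_natCast_atTop_atTop).eventually_ge_atTop 6
  have h2 : ∀ᶠ n : ℕ in atTop, 12 ≤ (n : ℝ) ^ δ :=
    ((tendsto_rpow_atTop hδ).comp tendsto_natCast_atTop_atTop).eventually_ge_atTop 12
  have hev : ∀ᶠ n : ℕ in atTop, ∀ j : ℕ, (2 : ℝ) ^ j ≤ Real.exp ((n : ℝ) ^ (1 - δ)) →
      4 * j + 5 ≤ n ∧ 4 * j ≤ ⌊(n : ℝ) ^ (1 - δ / 2)⌋₊ := by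
    filter_upwards [h1, h2, eventually_ge_atTop 10] with n h1 h2 h3 j hj
    have hn : (0 : ℝ) < n := by
      have : (0 : ℕ) < n := by omega
      exact_mod_cast this
    have h4 : (j : ℝ) * Real.log 2 ≤ (n : ℝ) ^ (1 - δ) := by
      have := Real.log_le_log (by positivity) hj
      rwa [Real.log_exp, Real.log_pow] at this
    have h5 : (2 / 3 : ℝ) < Real.log 2 := by
      have := Real.log_two_gt_d9
      linarith
    have h6 : (4 * j : ℝ) ≤ 6 * (n : ℝ) ^ (1 - δ) := by
      have hj0 : (0 : ℝ) ≤ j := Nat.cast_nonneg j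
      nlinarith
    have h7 : (n : ℝ) ^ (1 - δ / 2) = (n : ℝ) ^ (δ / 2) * (n : ℝ) ^ (1 - δ) := by
      rw [← Real.rpow_add hn]; ring_nf
    have h8 : (n : ℝ) = (n : ℝ) ^ δ * (n : ℝ) ^ (1 - δ) := by
      rw [← Real.rpow_add hn]; ring_nf; rw [Real.rpow_one]
    have h9 : 0 < (n : ℝ) ^ (1 - δ) := Real.rpow_pos_of_pos hn _
    constructor
    · have h10 : (4 * j : ℝ) ≤ n / 2 := by
        rw [h8]
        nlinarith
      have h11 : (10 : ℝ) ≤ n := by exact_mod_cast h3
      have h12 : (4 * j + 5 : ℝ) ≤ n := by linarith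
      exact_mod_cast h12
    · refine Nat.le_floor ?_
      push_cast
      rw [h7]
      nlinarith
  have hpos : ∀ n : ℕ, (0 : ℝ) < (Fintype.card (Alt n) : ℝ) := fun n => by
    exact_mod_cast Fintype.card_pos
  refine tendsto_of_tendsto_of_tendsto_of_le_of_le' hlim tendsto_const_nhds ?_ ?_
  · filter_upwards [hev] with n hn
    have hA := hpos n
    refine div_le_div_of_nonneg_right ?_ (by positivity)
    have h3 := RC14.card_mono (fun x : Fin k → Alt n =>
      Pool.Agent.Results.MP_75608d_al.GapAllTuples.GapUpTo n ⌊(n : ℝ) ^ (1 - δ / 2)⌋₊ ε x)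
      (fun x => GapOnRepresentations n (Real.exp ((n : ℝ) ^ (1 - δ))) ε x)
      (fun x hx => reps_of_low x hx.1 hn)
    exact_mod_cast h3
  · refine Eventually.of_forall fun n => ?_
    have hA := hpos n
    rw [div_le_one (by positivity)]
    have h3 : Nat.card {x : Fin k → Alt n //
        GapOnRepresentations n (Real.exp ((n : ℝ) ^ (1 - δ))) ε x} ≤
          Nat.card (Fin k → Alt n) :=
      Nat.card_le_card_of_injective _ Subtype.val_injective
    rw [Nat.card_eq_fintype_card (α := Fin k → Alt n), Fintype.card_fun, Fintype.card_fin] at h3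
    exact_mod_cast h3

end Pool.Agent.Results.MP_75608d_al.SmallRepresentations
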